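import Pool.Agent.H43.G.R_pool_sql_team_seeded_3997aac3.Q240.KS.Stm1

/-!
# KS-TUP, part A: products of arithmetic functions
-/

set_option autoImplicit false

namespace Pool.Agent.Q95.KS

open Finset Pool.Agent.H376R2.MR Pool.Agent.Q240.KS

/-! ### the tent -/

theorem w_nonneg (s : ℝ) : 0 ≤ w s := le_max_left _ _

theorem w_le_one (s : ℝ) : w s ≤ 1 := by
  unfold w
  apply max_le zero_le_one
  have := abs_nonneg s
  linarith

theorem w_eq_zero {s : ℝ} (h : 1 ≤ |s|) : w s = 0 := by
  unfold w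
  apply max_eq_left
  linarith

theorem w_ne {s : ℝ} (h : w s ≠ 0) : |s| < 1 := by
  by_contra hc
  exact h (w_eq_zero (not_lt.mp hc))

theorem w_zero : w 0 = 1 := by
  simp [w]

theorem w_part (x : ℝ) (hx : 0 ≤ x) (R : ℕ) (hR : x + 1 < R) :
    ∑ d ∈ range R, w (x - d) = 1 := by
  set m : ℕ := ⌊x⌋₊ with hm
  have h1 : (m : ℝ) ≤ x := Nat.floor_le hx
  have h2 : x < m + 1 := Nat.lt_floor_add_one x
  have hmR : m + 1 < R := by
    have : (m : ℝ) + 1 < R := by linarith
    exact_mod_cast this
  have hsub : ({m, m + 1} : Finset ℕ) ⊆ range R := by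
    intro d hd
    simp only [mem_insert, mem_singleton] at hd
    rw [mem_range]
    omega
  rw [← sum_subset hsub, sum_pair (by omega)]
  · have e1 : w (x - m) = 1 - (x - m) := by
      unfold w
      rw [abs_of_nonneg (by linarith), max_eq_right (by linarith)]
    have e2 : w (x - ((m + 1 : ℕ) : ℝ)) = 1 + (x - (m + 1)) := by
      unfold w
      push_cast
      rw [abs_of_nonpos (by linarith), max_eq_right (by linarith)]
      ring
    rw [e1, e2]
    ring
  · intro d _ hd
    simp only [mem_insert, mem_singleton, not_or] at hd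
    apply w_eq_zero
    rcases lt_or_gt_of_ne hd.1 with h | h
    · have h3 : (d : ℝ) + 1 ≤ m := by exact_mod_cast h
      rw [le_abs]
      left
      linarith
    · have h4 : m + 2 ≤ d := by omega
      have h3 : (m : ℝ) + 2 ≤ d := by exact_mod_cast h4
      rw [le_abs]
      right
      linarith

/-! ### characters -/

theorem ch_add (k : ℤ) (x y : ℝ) : ch k (x + y) = ch k x * ch k y := by
  unfold ch
  rw [← Complex.exp_add]
  congr 1
  push_cast
  ring

theorem ch_zero (k : ℤ) : ch k 0 = 1 := by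
  simp [ch]

/-! ### finite Dirichlet polynomials of arithmetic functions -/

/-- the arithmetic function vanishes beyond `N` -/
def Sup (f : ArithmeticFunction ℝ) (N : ℕ) : Prop := ∀ n, N < n → f n = 0

/-- the Dirichlet polynomial -/
noncomputable def Lf (k : ℤ) (N : ℕ) (f : ArithmeticFunction ℝ) : ℂ :=
  ∑ n ∈ Icc 1 N, ((f n : ℝ) : ℂ) * ch k (Real.log n)

theorem Lf_mono (k : ℤ) {N M : ℕ} (h : N ≤ M) {f : ArithmeticFunction ℝ} (hf : Sup f N) :
    Lf k N f = Lf k M f := by
  unfold Lf
  apply sum_subset (Icc_subset_Icc_right h)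
  intro n hn hn'
  rw [mem_Icc] at hn hn'
  have : N < n := by
    by_contra hc
    exact hn' ⟨hn.1, not_lt.mp hc⟩
  rw [hf n this]
  simp

theorem Lf_indep (k : ℤ) {N M : ℕ} {f : ArithmeticFunction ℝ} (hf : Sup f N) (hf' : Sup f M) :
    Lf k N f = Lf k M f := by
  rw [Lf_mono k (le_max_left N M) hf, Lf_mono k (le_max_right N M) hf']

theorem Sup_mul {f g : ArithmeticFunction ℝ} {N M : ℕ} (hf : Sup f N) (hg : Sup g M) :
    Sup (f * g) (N * M) := by
  intro n hn
  rw [ArithmeticFunction.mul_apply]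
  apply sum_eq_zero
  rintro ⟨x, y⟩ hxy
  rw [Nat.mem_divisorsAntidiagonal] at hxy
  obtain ⟨h1, h2⟩ := hxy
  simp only at h1
  by_cases hx : N < x
  · simp only
    rw [hf x hx, zero_mul]
  · by_cases hy : M < y
    · simp only
      rw [hg y hy, mul_zero]
    · exfalso
      have : x * y ≤ N * M := Nat.mul_le_mul (not_lt.mp hx) (not_lt.mp hy)
      omega

theorem Lf_mul (k : ℤ) {f g : ArithmeticFunction ℝ} {N M : ℕ} (hf : Sup f N) (hg : Sup g M) :
    Lf k N f * Lf k M g = Lf k (N * M) (f * g) := by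
  unfold Lf
  rw [sum_mul_sum, ← sum_product']
  have hmaps : ∀ p ∈ Icc 1 N ×ˢ Icc 1 M, p.1 * p.2 ∈ Icc 1 (N * M) := by
    rintro ⟨x, y⟩ hp
    rw [mem_product, mem_Icc, mem_Icc] at hp
    rw [mem_Icc]
    exact ⟨Nat.mul_pos hp.1.1 hp.2.1, Nat.mul_le_mul hp.1.2 hp.2.2⟩
  rw [← sum_fiberwise_of_maps_to hmaps]
  apply sum_congr rfl
  intro n hn
  rw [mem_Icc] at hn
  rw [ArithmeticFunction.mul_apply]
  push_cast
  rw [sum_mul]
  have hsub : (Icc 1 N ×ˢ Icc 1 M).filter (fun p => p.1 * p.2 = n) ⊆ n.divisorsAntidiagonal := by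
    rintro ⟨x, y⟩ hp
    rw [mem_filter] at hp
    rw [Nat.mem_divisorsAntidiagonal]
    exact ⟨hp.2, by omega⟩
  rw [← sum_subset hsub]
  · apply sum_congr rfl
    rintro ⟨x, y⟩ hp
    rw [mem_filter, mem_product, mem_Icc, mem_Icc] at hp
    obtain ⟨⟨hx, hy⟩, hxy⟩ := hp
    simp only at hx hy hxy ⊢
    have hx0 : (x : ℝ) ≠ 0 := by
      have : x ≠ 0 := by omega
      exact_mod_cast this
    have hy0 : (y : ℝ) ≠ 0 := by
      have : y ≠ 0 := by omega
      exact_mod_cast this
    have e1 : Real.log (n : ℝ) = Real.log x + Real.log y := by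
      rw [← hxy]
      push_cast
      exact Real.log_mul hx0 hy0
    rw [e1, ch_add]
    ring
  · rintro ⟨x, y⟩ hp hnp
    rw [Nat.mem_divisorsAntidiagonal] at hp
    rw [mem_filter, mem_product, mem_Icc, mem_Icc] at hnp
    obtain ⟨h1, h2⟩ := hp
    simp only at h1 hnp ⊢
    have hx1 : 1 ≤ x := by
      rcases Nat.eq_zero_or_pos x with h | h
      · rw [h, zero_mul] at h1
        omega
      · exact h
    have hy1 : 1 ≤ y := by
      rcases Nat.eq_zero_or_pos y with h | h
      · rw [h, mul_zero] at h1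
        omega
      · exact h
    by_cases hx : N < x
    · rw [hf x hx]
      simp
    · by_cases hy : M < y
      · rw [hg y hy]
        simp
      · exfalso
        exact hnp ⟨⟨⟨hx1, not_lt.mp hx⟩, ⟨hy1, not_lt.mp hy⟩⟩, h1⟩

theorem Lf_prod (k : ℤ) (s : Finset (Fin 10)) (N : Fin 10 → ℕ)
    (f : Fin 10 → ArithmeticFunction ℝ) (hf : ∀ i, Sup (f i) (N i)) :
    Sup (∏ i ∈ s, f i) (∏ i ∈ s, N i) ∧
      ∏ i ∈ s, Lf k (N i) (f i) = Lf k (∏ i ∈ s, N i) (∏ i ∈ s, f i) := by
  induction s using Finset.induction_on with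
  | empty =>
    constructor
    · intro n hn
      rw [prod_empty] at hn ⊢
      exact ArithmeticFunction.one_apply_ne (by omega)
    · simp [Lf, ch_zero]
  | insert a s ha ih =>
    rw [prod_insert ha, prod_insert ha, prod_insert ha, ih.2]
    exact ⟨Sup_mul (hf a) ih.1, Lf_mul k (hf a) ih.1⟩

/-! ### pointwise facts for products -/

theorem prod_congr_dvd {n : ℕ} (s : Finset (Fin 10))
    (f g : Fin 10 → ArithmeticFunction ℝ) (h : ∀ i, ∀ m, m ∣ n → f i m = g i m) :
    ∀ m, m ∣ n → (∏ i ∈ s, f i) m = (∏ i ∈ s, g i) m := by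
  induction s using Finset.induction_on with
  | empty => intro m _; rfl
  | insert a s ha ih =>
    intro m hm
    rw [prod_insert ha, prod_insert ha, ArithmeticFunction.mul_apply, ArithmeticFunction.mul_apply]
    apply sum_congr rfl
    rintro ⟨x, y⟩ hxy
    rw [Nat.mem_divisorsAntidiagonal] at hxy
    have hx : x ∣ n := (Dvd.intro y hxy.1).trans hm
    have hy : y ∣ n := (Dvd.intro_left x hxy.1).trans hm
    simp only
    rw [h a x hx, ih y hy]

theorem prod_bound {n : ℕ} (hn : n ≠ 0) (s : Finset (Fin 10))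
    (f : Fin 10 → ArithmeticFunction ℝ) (c : Fin 10 → ℝ) (hc : ∀ i, 0 ≤ c i)
    (h : ∀ i, ∀ m, m ∣ n → |f i m| ≤ c i / m) :
    ∀ m, m ∣ n → |(∏ i ∈ s, f i) m| ≤ (∏ i ∈ s, c i) * (n.divisors.card : ℝ) ^ s.card / m := by
  induction s using Finset.induction_on with
  | empty =>
    intro m hm
    simp only [prod_empty, card_empty, pow_zero, mul_one]
    by_cases h1 : m = 1
    · rw [h1]; simp
    · rw [ArithmeticFunction.one_apply_ne h1]
      simp
  | insert a s ha ih =>
    intro m hm
    have hm0 : m ≠ 0 := fun h0 => hn (by rw [h0] at hm; exact zero_dvd_iff.mp hm)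
    rw [prod_insert ha, prod_insert ha, ArithmeticFunction.mul_apply, card_insert_of_notMem ha]
    have hC : 0 ≤ ∏ i ∈ s, c i := prod_nonneg fun i _ => hc i
    calc |∑ x ∈ m.divisorsAntidiagonal, f a x.1 * (∏ i ∈ s, f i) x.2|
        ≤ ∑ x ∈ m.divisorsAntidiagonal, |f a x.1 * (∏ i ∈ s, f i) x.2| := abs_sum_le_sum_abs _ _
      _ ≤ ∑ x ∈ m.divisorsAntidiagonal,
          (c a * (∏ i ∈ s, c i) * (n.divisors.card : ℝ) ^ s.card / m) := by
          apply sum_le_sum
          rintro ⟨x, y⟩ hxy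
          rw [Nat.mem_divisorsAntidiagonal] at hxy
          have hx : x ∣ n := (Dvd.intro y hxy.1).trans hm
          have hy : y ∣ n := (Dvd.intro_left x hxy.1).trans hm
          simp only at hxy ⊢
          rw [abs_mul]
          have e1 := h a x hx
          have e2 := ih y hy
          have e3 : (m : ℝ) = x * y := by rw [← hxy.1]; push_cast; ring
          calc |f a x| * |(∏ i ∈ s, f i) y|
              ≤ (c a / x) * ((∏ i ∈ s, c i) * (n.divisors.card : ℝ) ^ s.card / y) := by
                apply mul_le_mul e1 e2 (abs_nonneg _)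
                exact div_nonneg (hc a) (Nat.cast_nonneg _)
            _ = c a * (∏ i ∈ s, c i) * (n.divisors.card : ℝ) ^ s.card / m := by
                rw [e3, div_mul_div_comm]
                ring
      _ = (m.divisors.card : ℝ) *
          (c a * (∏ i ∈ s, c i) * (n.divisors.card : ℝ) ^ s.card / m) := by
          rw [Nat.sum_divisorsAntidiagonal (fun _ _ =>
            (c a * (∏ i ∈ s, c i) * (n.divisors.card : ℝ) ^ s.card / m)), sum_const, nsmul_eq_mul]
      _ ≤ (n.divisors.card : ℝ) *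
          (c a * (∏ i ∈ s, c i) * (n.divisors.card : ℝ) ^ s.card / m) := by
          apply mul_le_mul_of_nonneg_right
          · exact_mod_cast card_le_card (Nat.divisors_subset_of_dvd hn hm)
          · have := hc a
            positivity
      _ = c a * (∏ i ∈ s, c i) * (n.divisors.card : ℝ) ^ (s.card + 1) / m := by
          rw [pow_succ]; ring

/-- multiplication by `1/n` -/
noncomputable def sc (f : ArithmeticFunction ℝ) : ArithmeticFunction ℝ :=
  ⟨fun n => f n / n, by simp⟩

theorem sc_apply (f : ArithmeticFunction ℝ) (n : ℕ) : sc f n = f n / n := rfl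

theorem sc_one : sc 1 = 1 := by
  ext n
  rw [sc_apply]
  by_cases h : n = 1
  · rw [h]; simp
  · rw [ArithmeticFunction.one_apply_ne h, zero_div]

theorem sc_mul (f g : ArithmeticFunction ℝ) : sc (f * g) = sc f * sc g := by
  ext n
  rw [sc_apply, ArithmeticFunction.mul_apply, ArithmeticFunction.mul_apply, sum_div]
  apply sum_congr rfl
  rintro ⟨x, y⟩ hxy
  rw [Nat.mem_divisorsAntidiagonal] at hxy
  simp only at hxy ⊢
  rw [sc_apply, sc_apply]
  have e3 : (n : ℝ) = x * y := by rw [← hxy.1]; push_cast; ring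
  rw [e3, div_mul_div_comm]

theorem sc_prod (s : Finset (Fin 10)) (f : Fin 10 → ArithmeticFunction ℝ) :
    ∏ i ∈ s, sc (f i) = sc (∏ i ∈ s, f i) := by
  induction s using Finset.induction_on with
  | empty => rw [prod_empty, prod_empty, sc_one]
  | insert a s ha ih => rw [prod_insert ha, prod_insert ha, ih, sc_mul]

end Pool.Agent.Q95.KS
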